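import Pool.Agent.Helper52.GP.Line

/-!
A family of at least four pairwise disjoint closed unit balls in a real inner product space
(in particular in `ℝ ^ 3`) has at most two geometric permutations.
-/

namespace Pool.Agent.Results.MP_fddb8c_co.AtMostTwo

open Metric

variable {V : Type*} [NormedAddCommGroup V] [InnerProductSpace ℝ V] {ι : Type*}

/-- The line `{o + t • u | t real}` (with `u ≠ 0`) meets every closed unit ball with centre `c i`. -/
def IsTransversal (c : ι → V) (o u : V) : Prop :=
  u ≠ 0 ∧ ∀ i, ∃ t : ℝ, o + t • u ∈ closedBall (c i) 1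

/-- Travelling along the line `{o + t • u | t real}` in direction `u`, every point of the ball `i`
comes strictly before every point of the ball `j`. -/
def MeetsBefore (c : ι → V) (o u : V) (i j : ι) : Prop :=
  ∀ s t : ℝ, o + s • u ∈ closedBall (c i) 1 → o + t • u ∈ closedBall (c j) 1 → s < t

/-- The geometric permutation of the line: the unordered pair that consists of the order in which
the line meets the balls and of the reverse of this order. -/
def geomPerm (c : ι → V) (o u : V) : Set (ι → ι → Prop) :=
  {MeetsBefore c o u, fun i j => MeetsBefore c o u j i}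

/-- The set of all geometric permutations induced by the line transversals of the balls. -/
def geomPerms (c : ι → V) : Set (Set (ι → ι → Prop)) :=
  {P | ∃ o u : V, IsTransversal c o u ∧ P = geomPerm c o u}

open Pool.Agent.Helper52.GP in
/-- At least four pairwise disjoint closed unit balls have at most two geometric permutations. -/
theorem result [Finite ι] (hcard : 4 ≤ Nat.card ι) (c : ι → V)
    (hdisj : Pairwise fun i j => Disjoint (closedBall (c i) 1) (closedBall (c j) 1)) :
    (geomPerms c).encard ≤ 2 := by
  classical
  have : Fintype ι := Fintype.ofFinite ι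
  rw [Nat.card_eq_fintype_card] at hcard
  have hD : ∀ i j, i ≠ j → 4 < ‖c i - c j‖ ^ 2 := by
    intro i j hij
    have h1 : Disjoint (closedBall (c i) 1) (closedBall (c j) 1) := hdisj hij
    rw [disjoint_closedBall_closedBall_iff zero_le_one zero_le_one, dist_eq_norm] at h1
    have h2 : (2 : ℝ) < ‖c i - c j‖ := by linarith
    nlinarith
  by_contra hcon
  push Not at hcon
  have h3 : (3 : ℕ∞) ≤ (geomPerms c).encard := by
    have := Order.add_one_le_of_lt hcon
    norm_num at this
    exact this
  obtain ⟨t, hsub, htc⟩ := Set.exists_subset_encard_eq h3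
  rw [Set.encard_eq_three] at htc
  obtain ⟨P₀, P₁, P₂, h01, h02, h12, rfl⟩ := htc
  have m0 : P₀ ∈ geomPerms c := hsub (by simp)
  have m1 : P₁ ∈ geomPerms c := hsub (by simp)
  have m2 : P₂ ∈ geomPerms c := hsub (by simp)
  obtain ⟨o₀, u₀, T₀, rfl⟩ := m0
  obtain ⟨o₁, u₁, T₁, rfl⟩ := m1
  obtain ⟨o₂, u₂, T₂, rfl⟩ := m2
  -- two lines whose height functions agree up to reversal induce the same permutation
  have key : ∀ o u o' u' : V, IsTransversal c o u → IsTransversal c o' u' →
      Same Finset.univ (fun i => ht u (c i - o)) (fun i => ht u' (c i - o')) →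
      geomPerm c o u = geomPerm c o' u' := by
    intro o u o' u' T T' hS
    rcases hS with hS | hS
    · have e : MeetsBefore c o u = MeetsBefore c o' u' := by
        funext i j
        apply propext
        unfold MeetsBefore
        rw [before_iff hD T.1 T.2, before_iff hD T'.1 T'.2]
        exact hS i (Finset.mem_univ _) j (Finset.mem_univ _)
      unfold geomPerm
      rw [e]
    · have e : ∀ i j, MeetsBefore c o u i j ↔ MeetsBefore c o' u' j i := by
        intro i j
        unfold MeetsBefore
        rw [before_iff hD T.1 T.2, before_iff hD T'.1 T'.2]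
        have := hS i (Finset.mem_univ _) j (Finset.mem_univ _)
        simp only [neg_lt_neg_iff] at this
        exact this
      have e1 : MeetsBefore c o u = fun i j => MeetsBefore c o' u' j i := by
        funext i j
        exact propext (e i j)
      have e2 : (fun i j => MeetsBefore c o u j i) = MeetsBefore c o' u' := by
        funext i j
        exact propext (e j i)
      unfold geomPerm
      rw [e2, e1, Set.pair_comm]
  have hL : ∀ k : Fin 3, IsH c ((![fun i => ht u₀ (c i - o₀), fun i => ht u₁ (c i - o₁),
      fun i => ht u₂ (c i - o₂)] : Fin 3 → ι → ℝ) k) := by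
    intro k
    fin_cases k
    · exact isH_of T₀.1 T₀.2
    · exact isH_of T₁.1 T₁.2
    · exact isH_of T₂.1 T₂.2
  obtain ⟨k, hk⟩ := two_of_three (fam hD) (Fintype.card ι) hcard Finset.univ Finset.card_univ _ hL
  fin_cases k
  · exact h12 (key _ _ _ _ T₁ T₂ hk)
  · exact h02 (key _ _ _ _ T₂ T₀ hk).symm
  · exact h01 (key _ _ _ _ T₀ T₁ hk)

end Pool.Agent.Results.MP_fddb8c_co.AtMostTwo
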